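import Pool.Agent.N236.UR.Stm6

/-!
# Project UR (helper236), leaf DISC: the value group of a finite extension
-/

set_option autoImplicit false

open Polynomial

namespace Pool.Agent.N966.UR

open Pool.Agent.N236.UB Pool.Agent.N236.UR

/-- elements with values in different classes modulo the value group of the base field are
linearly independent -/
theorem indep {K₀ L : Type} [Field K₀] [Field L] [Algebra K₀ L] [FiniteDimensional K₀ L]
    (v : AbsoluteValue L ℝ) (c : ℝ) (hna : ∀ x y : L, v (x + y) ≤ max (v x) (v y)) (hc : c ≠ 0)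
    (hv : ∀ x : K₀, x ≠ 0 → ∃ k : ℤ, v (algebraMap K₀ L x) = c ^ k) (m : ℕ) (x : Fin m → L)
    (hx : ∀ i, x i ≠ 0) (hd : ∀ i j, i ≠ j → ∀ k : ℤ, v (x i) ≠ c ^ k * v (x j)) :
    m ≤ Module.finrank K₀ L := by
  classical
  have hli : LinearIndependent K₀ x := by
    rw [linearIndependent_iff']
    intro s g hg i hi
    by_contra hgi
    -- the terms which are not zero
    set t := s.filter (fun j => g j ≠ 0) with ht
    have hit : i ∈ t := by
      rw [ht, Finset.mem_filter]
      exact ⟨hi, hgi⟩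
    have hsum : ∑ j ∈ t, g j • x j = 0 := by
      rw [← hg, ht, Finset.sum_filter]
      refine Finset.sum_congr rfl fun j _ => ?_
      by_cases hj : g j = 0
      · rw [if_neg (not_not.2 hj), hj, zero_smul]
      · rw [if_pos hj]
    obtain ⟨k, hkt, hkmax⟩ := Finset.exists_max_image t (fun j => v (g j • x j)) ⟨i, hit⟩
    have hlt : ∀ j ∈ t, j ≠ k → v (g j • x j) < v (g k • x k) := by
      intro j hj hjk
      refine lt_of_le_of_ne (hkmax j hj) ?_
      intro h
      have hgj : g j ≠ 0 := (Finset.mem_filter.1 hj).2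
      have hgk : g k ≠ 0 := (Finset.mem_filter.1 hkt).2
      obtain ⟨a, ha⟩ := hv (g j) hgj
      obtain ⟨b, hb⟩ := hv (g k) hgk
      rw [Algebra.smul_def, Algebra.smul_def, map_mul, map_mul, ha, hb] at h
      refine hd j k hjk (b - a) ?_
      have hca : c ^ a ≠ 0 := zpow_ne_zero _ hc
      rw [zpow_sub₀ hc]
      field_simp
      linarith
    have hfna : IsNonarchimedean (fun y : L => v y) := hna
    have h1 := IsNonarchimedean.apply_sum_eq_of_lt hfna (fun a => (AbsoluteValue.map_neg v a).symm) hkt hlt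
    rw [hsum, map_zero] at h1
    have hgk : g k ≠ 0 := (Finset.mem_filter.1 hkt).2
    have h2 : g k • x k = 0 := (AbsoluteValue.eq_zero v).1 h1.symm
    rcases smul_eq_zero.1 h2 with h3 | h3
    · exact hgk h3
    · exact hx k h3
  have h := hli.fintype_card_le_finrank
  rwa [Fintype.card_fin] at h

theorem t_disc : S_DISC := by
  intro K₀ L _ _ _ _ v p hp hna hc0 hc1 hv
  set c := v (p : L) with hc
  set n := Module.finrank K₀ L with hn
  have hcne : c ≠ 0 := hc0.ne'
  have hp0 : (p : L) ≠ 0 := by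
    intro h
    rw [hc, h, map_zero] at hc0
    exact lt_irrefl _ hc0
  have hfac : n.factorial ≠ 0 := Nat.factorial_ne_zero _
  -- (B)
  have hB : ∀ x : L, x ≠ 0 → ∃ k : ℤ, v x ^ n.factorial = c ^ k := by
    intro x hx
    have h1 : ∃ i j : Fin (n + 1), i ≠ j ∧ ∃ k : ℤ, v (x ^ (i : ℕ)) = c ^ k * v (x ^ (j : ℕ)) := by
      by_contra hcon
      push Not at hcon
      have := indep (K₀ := K₀) v c hna hcne hv (n + 1) (fun i => x ^ (i : ℕ))
        (fun i => pow_ne_zero _ hx) (fun i j hij k => hcon i j hij k)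
      omega
    have hvx : v x ≠ 0 := (AbsoluteValue.ne_zero_iff v).2 hx
    have h2 : ∃ j : ℕ, 1 ≤ j ∧ j ≤ n ∧ ∃ k : ℤ, v x ^ j = c ^ k := by
      obtain ⟨i, j, hij, k, hk⟩ := h1
      rw [map_pow, map_pow] at hk
      rcases lt_trichotomy (i : ℕ) (j : ℕ) with h | h | h
      · refine ⟨j - i, by omega, by omega, -k, ?_⟩
        have h3 : v x ^ (j : ℕ) = v x ^ (j - i : ℕ) * v x ^ (i : ℕ) := by
          rw [← pow_add]
          congr 1
          omega
        rw [h3] at hk
        have h4 : v x ^ (i : ℕ) ≠ 0 := pow_ne_zero _ hvx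
        have h5 : c ^ k * v x ^ (j - i : ℕ) = 1 := by
          have : (c ^ k * v x ^ (j - i : ℕ)) * v x ^ (i : ℕ) = 1 * v x ^ (i : ℕ) := by
            linarith
          exact mul_right_cancel₀ h4 this
        rw [zpow_neg]
        exact eq_inv_of_mul_eq_one_right h5
      · exact absurd (Fin.ext h) hij
      · refine ⟨i - j, by omega, by omega, k, ?_⟩
        have h3 : v x ^ (i : ℕ) = v x ^ (i - j : ℕ) * v x ^ (j : ℕ) := by
          rw [← pow_add]
          congr 1
          omega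
        rw [h3] at hk
        exact mul_right_cancel₀ (pow_ne_zero _ hvx) hk
    obtain ⟨j, hj1, hjn, k, hk⟩ := h2
    obtain ⟨q, hq⟩ := Nat.dvd_factorial hj1 hjn
    refine ⟨k * q, ?_⟩
    rw [hq, pow_mul, hk, zpow_mul, zpow_natCast]
  -- (C)
  have hC : ∃ k : ℕ, 1 ≤ k ∧ ∃ x : L, x ≠ 0 ∧ v x ^ n.factorial = c ^ k :=
    ⟨n.factorial, Nat.one_le_iff_ne_zero.2 hfac, (p : L), hp0, rfl⟩
  classical
  obtain ⟨hk01, w, hw0, hw⟩ := Nat.find_spec hC
  set k0 := Nat.find hC with hk0
  have hvw0 : 0 < v w := (AbsoluteValue.pos_iff v).2 hw0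
  have hvw1 : v w < 1 := by
    by_contra hcon
    rw [not_lt] at hcon
    have h1 : (1 : ℝ) ≤ v w ^ n.factorial := one_le_pow₀ hcon
    rw [hw] at h1
    exact absurd (pow_lt_one₀ hc0.le hc1 (by omega : k0 ≠ 0)) (not_lt.2 h1)
  have hmax : ∀ x : L, v x < 1 → v x ≤ v w := by
    intro x hx
    by_cases hx0 : x = 0
    · rw [hx0, map_zero]
      exact hvw0.le
    obtain ⟨k, hk⟩ := hB x hx0
    have h1 : v x ^ n.factorial < 1 := pow_lt_one₀ (AbsoluteValue.nonneg v x) hx hfac
    rw [hk, zpow_lt_one_iff_right_of_lt_one₀ hc0 hc1] at h1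
    obtain ⟨k', rfl⟩ := Int.eq_ofNat_of_zero_le h1.le
    rw [zpow_natCast] at hk
    have h2 : k0 ≤ k' := Nat.find_min' hC ⟨by omega, x, hx0, hk⟩
    have h3 : v x ^ n.factorial ≤ v w ^ n.factorial := by
      rw [hk, hw]
      exact pow_le_pow_of_le_one hc0.le hc1.le h2
    exact (pow_le_pow_iff_left₀ (AbsoluteValue.nonneg v x) hvw0.le hfac).1 h3
  -- (D)
  have hD : ∃ i : ℕ, v w ^ i < c := exists_pow_lt_of_lt_one hc0 hvw1
  have hi1 := Nat.find_spec hD
  have hi2 : Nat.find hD ≠ 0 := by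
    intro h
    rw [h, pow_zero] at hi1
    linarith
  obtain ⟨e, he⟩ := Nat.exists_eq_succ_of_ne_zero hi2
  have he1 : c ≤ v w ^ e := not_lt.1 (Nat.find_min hD (by omega))
  rw [he] at hi1
  have hwe : 0 < v w ^ e := pow_pos hvw0 e
  have he2 : v w ^ e = c := by
    by_contra hne
    have h1 : c < v w ^ e := lt_of_le_of_ne he1 (Ne.symm hne)
    have h2 : v ((p : L) / w ^ e) < 1 := by
      rw [map_div₀, map_pow, ← hc, div_lt_one hwe]
      exact h1
    have h3 := hmax _ h2
    rw [map_div₀, map_pow, ← hc, div_le_iff₀ hwe] at h3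
    rw [Nat.succ_eq_add_one, pow_succ] at hi1
    linarith
  have he3 : 1 ≤ e := by
    rw [Nat.one_le_iff_ne_zero]
    rintro rfl
    rw [pow_zero] at he2
    linarith
  refine ⟨w, e, hvw0, hvw1, hmax, he3, ?_, he2⟩
  -- (E)
  refine indep (K₀ := K₀) v c hna hcne hv e (fun i => w ^ (i : ℕ)) (fun i => pow_ne_zero _ hw0) ?_
  intro i j hij k hk
  simp only [map_pow] at hk
  have h1 : v w ^ ((i : ℕ) : ℤ) = v w ^ ((e : ℤ) * k + (j : ℕ)) := by
    rw [zpow_add₀ hvw0.ne', zpow_mul, zpow_natCast, zpow_natCast, zpow_natCast, he2]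
    exact hk
  rw [zpow_right_inj₀ hvw0 hvw1.ne] at h1
  have hi := i.2
  have hj := j.2
  apply hij
  apply Fin.ext
  have hk0 : k = 0 := by
    by_contra hkne
    rcases lt_or_gt_of_ne hkne with h | h
    · have : (e : ℤ) * k ≤ (e : ℤ) * (-1) := mul_le_mul_of_nonneg_left (by omega) (by omega)
      omega
    · have : (e : ℤ) * 1 ≤ (e : ℤ) * k := mul_le_mul_of_nonneg_left (by omega) (by omega)
      omega
  rw [hk0, mul_zero, zero_add] at h1
  exact_mod_cast h1

end Pool.Agent.N966.UR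

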